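import Pool.Agent.H86.CMLib.W547.KB.Canon
import Pool.Agent.H86.CMLib.W537.PC.Defs

/-!
# Complex coefficients of Hodge classes and of de Rham-Betti classes
-/

set_option linter.unusedSectionVars false
set_option linter.unusedVariables false

namespace Pool.Agent.W537.PC

open NumberField Pool.Agent.H204R3.CM Pool.Agent.W547.KB Module

noncomputable section

variable {X : CMAV} {κ : Type} [Fintype κ] [DecidableEq κ]

/-- The coordinates of an element of the homology. -/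
def chiX (w : X.H1) : Wt X ℂ → ℂ := fun x => x.2 (w x.1)

open Classical in
/-- The coordinate vectors. -/
def eI (I : κ → Wt X ℂ) : κ → (Wt X ℂ → ℂ) := fun l => Pi.single (I l) 1

omit [Fintype κ] [DecidableEq κ] in
theorem eI_same (I : κ → Wt X ℂ) (k : κ) {x : Wt X ℂ} (h : x = I k) : eI I k x = 1 := by
  classical
  subst h
  unfold eI
  rw [Pi.single_eq_same]

omit [Fintype κ] [DecidableEq κ] in
theorem eI_ne (I : κ → Wt X ℂ) (k : κ) {x : Wt X ℂ} (h : x ≠ I k) : eI I k x = 0 := by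
  classical
  unfold eI
  rw [Pi.single_eq_of_ne h]

theorem ext_chi {M M' : MultilinearMap ℂ (fun _ : κ => Wt X ℂ → ℂ) ℂ}
    (h : ∀ v : κ → X.H1, M (fun l => chiX (v l)) = M' (fun l => chiX (v l))) : M = M' := by
  refine multilinear_ext_span _ _ _
    (span_chi (E := fun i => (X.factor i).E) (fun i : X.I => i)) ?_
  intro v hv
  choose w hw using hv
  have hv' : v = fun l => chiX (w l) := funext fun l => (hw l).symm
  rw [hv']
  exact h w

open Classical in
theorem expand (M : MultilinearMap ℂ (fun _ : κ => Wt X ℂ → ℂ) ℂ) (u : κ → Wt X ℂ → ℂ) :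
    M u = ∑ I : κ → Wt X ℂ, M (eI I) * ∏ l, u l (I l) := by
  have h1 : u = fun l => ∑ x, u l x • (Pi.single x 1 : Wt X ℂ → ℂ) := by
    funext l
    conv_lhs => rw [pi_eq_sum_univ' (u l)]
  conv_lhs => rw [h1]
  rw [MultilinearMap.map_sum]
  refine Finset.sum_congr rfl fun I _ => ?_
  rw [MultilinearMap.map_smul_univ, smul_eq_mul, mul_comm]
  rfl

theorem balanced_cx {f : X.H1 [⋀^κ]→ₗ[ℚ] ℚ}
    {M : MultilinearMap ℂ (fun _ : κ => Wt X ℂ → ℂ) ℂ}
    (hM : ∀ v : κ → X.H1, M (fun l => chiX (v l)) = ((f v : ℚ) : ℂ)) (hf : IsHodge X.per f)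
    (I : κ → Wt X ℂ) (hI : M (eI I) ≠ 0) (s : κ → ℤ)
    (hs : ∀ l, (I l).2 ∈ (X.factor (I l).1).Φ → s l = 1)
    (hs' : ∀ l, (I l).2 ∉ (X.factor (I l).1).Φ → s l = -1) : ∑ l, s l = 0 := by
  classical
  obtain ⟨ψ, hψ1, hψ2⟩ := hf
  have h1 := balanced_of_type (E := fun i => (X.factor i).E) (Φ := fun i => (X.factor i).Φ)
    (fun i : X.I => i) (fun i => (X.factor i).isCMType) (fun I => M (eI I)) ψ (by
    intro v
    have h2 := hψ1 v
    have h3 : ((ψ (fun l => X.per (v l)) : ℝ) : ℂ) = ((f v : ℚ) : ℂ) := by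
      rw [h2]
      push_cast
      rfl
    refine Eq.trans h3 ?_
    rw [← hM v, expand]
    rfl) hψ2 I hI
  rw [← h1]
  refine Finset.sum_congr rfl fun l _ => ?_
  by_cases h : (I l).2 ∈ (X.factor (I l).1).Φ
  · rw [if_pos h, hs l h]
  · rw [if_neg h, hs' l h]

/-- The period belonging to a weight. -/
def PeriodSystem.th (P : PeriodSystem) (x : Wt X ℂ) : ℂ := P.θ (X.factor x.1) x.2

theorem PeriodSystem.th_ne (P : PeriodSystem) (x : Wt X ℂ) : P.th x ≠ 0 := P.ne_zero _ _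

variable (P : PeriodSystem)

/-- The wedge product of coordinates, with factors. -/
def detM (a : κ → ℂ) (J : κ → Wt X ℂ) :
    MultilinearMap ℂ (fun _ : κ => Wt X ℂ → ℂ) ℂ :=
  ((Matrix.detRowAlternating (n := κ) (R := ℂ)).compLinearMap
    (LinearMap.pi fun l => a l • LinearMap.proj (J l))).toMultilinearMap

theorem detM_apply (a : κ → ℂ) (J : κ → Wt X ℂ) (u : κ → Wt X ℂ → ℂ) :
    detM a J u = Matrix.det (Matrix.of fun k l => a l * u k (J l)) := rfl

theorem detM_e (J I : κ → Wt X ℂ) :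
    ∃ n : ℤ, detM (fun l => P.th (J l)) J (eI I) = n * ∏ l, P.th (I l) := by
  classical
  rw [detM_apply, Matrix.det_apply']
  have h1 : ∀ σ : Equiv.Perm κ, ∃ n : ℤ, (((Equiv.Perm.sign σ : ℤ) : ℂ) *
      ∏ i, (Matrix.of fun k l => P.th (J l) * eI I k (J l)) (σ i) i) =
        n * ∏ l, P.th (I l) := by
    intro σ
    by_cases h : ∀ i, J i = I (σ i)
    · refine ⟨(Equiv.Perm.sign σ : ℤ), ?_⟩
      congr 1
      rw [← Equiv.prod_comp σ (fun l => P.th (I l))]
      refine Finset.prod_congr rfl fun i _ => ?_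
      rw [Matrix.of_apply, h i]
      unfold eI
      rw [Pi.single_eq_same, mul_one]
    · push Not at h
      obtain ⟨i, hi⟩ := h
      refine ⟨0, ?_⟩
      rw [Finset.prod_eq_zero (Finset.mem_univ i), mul_zero]
      · simp
      · rw [Matrix.of_apply]
        unfold eI
        rw [Pi.single_eq_of_ne hi, mul_zero]
  choose n hn using h1
  refine ⟨∑ σ, n σ, ?_⟩
  rw [Finset.sum_congr rfl (fun σ _ => hn σ), ← Finset.sum_mul]
  push_cast
  rfl

theorem deRham_cx {m : ℕ} {F : (Fin m → X.H1) → ℂ} (hF : F ∈ P.deRham X m) :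
    ∃ M : MultilinearMap ℂ (fun _ : Fin m => Wt X ℂ → ℂ) ℂ,
      (∀ v, M (fun l => chiX (v l)) = F v) ∧
        ∀ I : Fin m → Wt X ℂ, M (eI I) / ∏ l, P.th (I l) ∈ algebraicClosure ℚ ℂ := by
  unfold PeriodSystem.deRham at hF
  induction hF using Submodule.span_induction with
  | mem F hF =>
    obtain ⟨J, rfl⟩ := hF
    refine ⟨detM (fun l => P.th (J l)) J, fun v => rfl, fun I => ?_⟩
    obtain ⟨n, hn⟩ := detM_e P J I
    rw [hn, mul_div_assoc, div_self (Finset.prod_ne_zero_iff.2 fun l _ => P.th_ne _), mul_one]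
    exact intCast_mem _ n
  | zero => exact ⟨0, fun v => rfl, fun I => by
      rw [_root_.zero_apply, zero_div]
      exact zero_mem _⟩
  | add F F' _ _ hF hF' =>
    obtain ⟨M, h1, h2⟩ := hF
    obtain ⟨M', h1', h2'⟩ := hF'
    refine ⟨M + M', fun v => ?_, fun I => ?_⟩
    · rw [_root_.add_apply, h1, h1']
      rfl
    · rw [_root_.add_apply, add_div]
      exact add_mem (h2 I) (h2' I)
  | smul a F _ hF =>
    obtain ⟨M, h1, h2⟩ := hF
    refine ⟨(a : ℂ) • M, fun v => ?_, fun I => ?_⟩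
    · rw [_root_.smul_apply, h1]
      rfl
    · rw [_root_.smul_apply, smul_eq_mul, mul_div_assoc]
      exact mul_mem a.2 (h2 I)

/-- The periods of the monomials in a de Rham-Betti class. -/
theorem alg_cx {k : ℕ} {f : X.H1 [⋀^Fin (2 * k)]→ₗ[ℚ] ℚ}
    {M : MultilinearMap ℂ (fun _ : Fin (2 * k) => Wt X ℂ → ℂ) ℂ}
    (hM : ∀ v, M (fun l => chiX (v l)) = ((f v : ℚ) : ℂ)) (hf : P.IsDRB X k f)
    (I : Fin (2 * k) → Wt X ℂ) (hI : M (eI I) ≠ 0) (ha : M (eI I) ∈ algebraicClosure ℚ ℂ) :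
    (∏ l, P.th (I l)) / (2 * Real.pi * Complex.I) ^ k ∈ algebraicClosure ℚ ℂ := by
  obtain ⟨M', h1, h2⟩ := deRham_cx P hf
  have h3 : M' = ((2 * Real.pi * Complex.I) ^ k) • M := by
    refine ext_chi fun v => ?_
    rw [h1, _root_.smul_apply, hM]
    rfl
  have h4 := h2 I
  rw [h3, _root_.smul_apply, smul_eq_mul] at h4
  have h5 := inv_mem (div_mem h4 ha)
  have hp : (∏ l, P.th (I l)) ≠ 0 := Finset.prod_ne_zero_iff.2 fun l _ => P.th_ne _
  have hpi : (2 * Real.pi * Complex.I : ℂ) ^ k ≠ 0 := pow_ne_zero _ Complex.two_pi_I_ne_zero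
  have h6 : ((2 * Real.pi * Complex.I : ℂ) ^ k * M (eI I) / (∏ l, P.th (I l)) / M (eI I))⁻¹ =
      (∏ l, P.th (I l)) / (2 * Real.pi * Complex.I) ^ k := by
    field_simp
  rwa [h6] at h5

end

end Pool.Agent.W537.PC
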