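import Pool.Agent.H86.CMLib.W547.KB.Main
import Pool.Agent.H86.CMLib.W537.PC.Main

/-!
# De Rham-Betti classes are Hodge classes, for abelian fields of complex multiplication
-/

set_option linter.unusedSectionVars false
set_option linter.unusedVariables false

namespace Pool.Agent.W537.PC

open NumberField Pool.Agent.H204R3.CM Pool.Agent.W547.KB Equiv Module

noncomputable section

/-- The common Galois closure, with the fact that embeddings are determined by their restrictions. -/
theorem exists_cm' (X : CMAV) [Nonempty X.I] :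
    ∃ (L : Type) (_ : Field L) (_ : NumberField L) (_ : IsCMField L) (_ : IsGalois ℚ L)
      (j : L →+* ℂ), (∀ i, ∀ ψ : (X.factor i).E →+* ℂ,
        ∃ φ : (X.factor i).E →+* L, j.comp φ = ψ) ∧
        ∀ a b : L →+* ℂ, (∀ i, ∀ φ : (X.factor i).E →+* L, ∀ x, a (φ x) = b (φ x)) → a = b := by
  classical
  have _ : Algebra.IsAlgebraic ℚ (AlgebraicClosure ℚ) := AlgebraicClosure.isAlgebraic ℚ
  have _ : IsAlgClosure ℚ (AlgebraicClosure ℚ) := ⟨inferInstance, inferInstance⟩
  have _ : Normal ℚ (AlgebraicClosure ℚ) := IsAlgClosure.normal ℚ (AlgebraicClosure ℚ)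
  let j0 : (AlgebraicClosure ℚ) →ₐ[ℚ] ℂ := IsAlgClosed.lift
  let L : IntermediateField ℚ (AlgebraicClosure ℚ) :=
    ⨆ i, IntermediateField.normalClosure ℚ (X.factor i).E (AlgebraicClosure ℚ)
  have hFD : FiniteDimensional ℚ L := IntermediateField.finiteDimensional_iSup_of_finite
  have _ : Normal ℚ L := IntermediateField.normal_iSup
    (h := fun i => normalClosure.normal ℚ (X.factor i).E (AlgebraicClosure ℚ))
  have hNF : NumberField L := NumberField.mk
  have hG : IsGalois ℚ L := ⟨⟩
  let j : L →+* ℂ := (j0 : (AlgebraicClosure ℚ) →+* ℂ).comp (algebraMap L (AlgebraicClosure ℚ))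
  have hj : ∀ i, ∀ ψ : (X.factor i).E →+* ℂ, ∃ φ : (X.factor i).E →+* L, j.comp φ = ψ := by
    intro i ψ
    have hinj : Function.Injective (fun φ : (X.factor i).E →+* (AlgebraicClosure ℚ) =>
        (j0 : (AlgebraicClosure ℚ) →+* ℂ).comp φ) := by
      intro φ φ' h
      ext x
      exact j0.injective (RingHom.congr_fun h x)
    have hbij : Function.Bijective (fun φ : (X.factor i).E →+* (AlgebraicClosure ℚ) =>
        (j0 : (AlgebraicClosure ℚ) →+* ℂ).comp φ) := by
      rw [Fintype.bijective_iff_injective_and_card]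
      exact ⟨hinj, by rw [Embeddings.card, Embeddings.card]⟩
    obtain ⟨φ, hφ⟩ := hbij.2 ψ
    let φ' : (X.factor i).E →ₐ[ℚ] (AlgebraicClosure ℚ) :=
      RingHom.equivRatAlgHom (X.factor i).E (AlgebraicClosure ℚ) φ
    have hle : φ'.fieldRange ≤ L :=
      (AlgHom.fieldRange_le_normalClosure φ').trans
        (le_iSup (fun i => IntermediateField.normalClosure ℚ (X.factor i).E
          (AlgebraicClosure ℚ)) i)
    let φL : (X.factor i).E →+* L :=
      { toFun := fun x => ⟨φ x, hle ⟨x, rfl⟩⟩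
        map_one' := Subtype.ext (map_one φ)
        map_mul' := fun a b => Subtype.ext (map_mul φ a b)
        map_zero' := Subtype.ext (map_zero φ)
        map_add' := fun a b => Subtype.ext (map_add φ a b) }
    refine ⟨φL, ?_⟩
    rw [← hφ]
    rfl
  -- complex conjugation
  have hconj : ∀ (ψ : L →+* ℂ) (i : X.I) (φ : (X.factor i).E →+* L) (x : (X.factor i).E),
      ComplexEmbedding.conjugate ψ (φ x) = ψ (φ (IsCMField.complexConj (X.factor i).E x)) := by
    intro ψ i φ x
    have h := RingHom.congr_fun (comp_cbar ψ φ) x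
    rw [ComplexEmbedding.conjugate_coe_eq] at h ⊢
    exact h.symm
  obtain ⟨σ, hσ⟩ : ∃ σ : L ≃ₐ[ℚ] L, j.comp (σ : L →+* L) = ComplexEmbedding.conjugate j := by
    have h : Function.Bijective (fun σ : L ≃ₐ[ℚ] L => j.comp (σ : L →+* L)) := by
      rw [Fintype.bijective_iff_injective_and_card]
      refine ⟨?_, ?_⟩
      · intro σ τ h
        ext1 x
        exact j.injective (RingHom.congr_fun h x)
      · rw [Embeddings.card, ← Nat.card_eq_fintype_card, IsGalois.card_aut_eq_finrank]
    exact h.2 _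
  have hσ' : ∀ (i : X.I) (φ : (X.factor i).E →+* L) (x : (X.factor i).E),
      σ (φ x) = φ (IsCMField.complexConj (X.factor i).E x) := by
    intro i φ x
    apply j.injective
    rw [← hconj j i φ x, ← hσ]
    rfl
  have hall : ∀ ψ : L →+* ℂ, ComplexEmbedding.IsConj ψ σ := by
    intro ψ
    refine eq_of_agree (fun i => (X.factor i).E) L rfl _ _ fun i φ x => ?_
    rw [hconj ψ i φ x]
    change _ = ψ (σ (φ x))
    rw [hσ' i φ x]
  have htc : IsTotallyComplex L := by
    refine ⟨fun w => ?_⟩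
    rw [InfinitePlace.isComplex_iff]
    intro hreal
    obtain ⟨i⟩ := ‹Nonempty X.I›
    obtain ⟨φ, -⟩ := hj i (Classical.choice inferInstance)
    apply IsCMField.complexConj_ne_one (X.factor i).E
    ext x
    apply φ.injective
    apply w.embedding.injective
    rw [← hconj w.embedding i φ x]
    have h := RingHom.congr_fun hreal (φ x)
    exact h
  exact ⟨L, inferInstance, hNF, IsCMField.of_forall_isConj L hall, hG, j, hj,
    fun a b hab => eq_of_agree (fun i => (X.factor i).E) L rfl a b hab⟩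

/-- Commutativity of the Galois group of the common Galois closure. -/
theorem comm_closure {L : Type} [Field L] [NumberField L] (j : L →+* ℂ) (X : CMAV)
    (hX : ∀ i, IsAbelian (X.factor i).E)
    (hgen : ∀ a b : L →+* ℂ, (∀ i, ∀ φ : (X.factor i).E →+* L, ∀ x, a (φ x) = b (φ x)) → a = b)
    (σ τ : L ≃ₐ[ℚ] L) : σ * τ = τ * σ := by
  have h1 : ∀ (i : X.I) (φ : (X.factor i).E →+* L) (σ : L ≃ₐ[ℚ] L),
      ∃ s : (X.factor i).E ≃ₐ[ℚ] (X.factor i).E, ∀ x, σ (φ x) = φ (s x) := by
    intro i φ σ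
    have := (hX i).1
    obtain ⟨s, hs⟩ := comp_surjective (j.comp φ) (j.comp ((σ : L →+* L).comp φ))
    refine ⟨s, fun x => j.injective ?_⟩
    exact (RingHom.congr_fun hs x).symm
  have h2 : j.comp ((σ * τ : L ≃ₐ[ℚ] L) : L →+* L) = j.comp ((τ * σ : L ≃ₐ[ℚ] L) : L →+* L) := by
    refine hgen _ _ fun i φ x => ?_
    obtain ⟨s, hs⟩ := h1 i φ σ
    obtain ⟨t, ht⟩ := h1 i φ τ
    change j (σ (τ (φ x))) = j (τ (σ (φ x)))
    rw [ht, hs, hs, ht]
    have h3 := DFunLike.congr_fun ((hX i).2 s t) x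
    change s (t x) = t (s x) at h3
    rw [h3]
  ext x
  exact j.injective (RingHom.congr_fun h2 x)

theorem hodge_sum {X : CMAV} {κ ι : Type} (s : Finset ι) (F : ι → X.H1 [⋀^κ]→ₗ[ℚ] ℚ)
    (h : ∀ i ∈ s, IsHodge X.per (F i)) : IsHodge X.per (∑ i ∈ s, F i) := by
  classical
  induction s using Finset.induction_on with
  | empty =>
    rw [Finset.sum_empty]
    exact hodge_zero X κ
  | insert a s ha ih =>
    rw [Finset.sum_insert ha]
    exact hodge_add (h a (Finset.mem_insert_self _ _))
      (ih fun u hu => h u (Finset.mem_insert_of_mem hu))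

theorem hodge_of_drb_field {L : Type} [Field L] [NumberField L] [IsCMField L] [IsGalois ℚ L]
    (j : L →+* ℂ) (P : PeriodSystem) (hB : P.Bost) (hD : P.Deligne)
    (hcomm : ∀ a b : L ≃ₐ[ℚ] L, a * b = b * a) (X : CMAV)
    (hj : ∀ i, ∀ ψ : (X.factor i).E →+* ℂ, ∃ φ : (X.factor i).E →+* L, j.comp φ = ψ) (k : ℕ)
    (f : X.H1 [⋀^Fin (2 * k)]→ₗ[ℚ] ℚ) (hf : P.IsDRB X k f) : IsHodge X.per f := by
  classical
  obtain ⟨c, hc⟩ := form_coeff (E := fun i : X.I => (X.factor i).E) (fun i : X.I => i) j hj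
    f.toMultilinearMap
  -- the periods of the monomials
  have hper : ∀ I : Fin (2 * k) → Wt X L, c I ≠ 0 → ∀ σ : L ≃ₐ[ℚ] L,
      (∏ l, P.th (⟨(I l).1, j.comp (σ • (I l).2)⟩ : Wt X ℂ)) / (2 * Real.pi * Complex.I) ^ k ∈
        algebraicClosure ℚ ℂ := by
    intro I hI σ
    let τ : L →+* ℂ := j.comp (σ : L →+* L)
    have hτ : ∀ i, ∀ ψ : (X.factor i).E →+* ℂ, ∃ φ : (X.factor i).E →+* L, τ.comp φ = ψ := by
      intro i ψ
      obtain ⟨φ, rfl⟩ := hj i ψ
      refine ⟨σ.symm • φ, RingHom.ext fun x => ?_⟩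
      change j (σ (σ.symm (φ x))) = j (φ x)
      rw [AlgEquiv.apply_symm_apply]
    let e : (Fin (2 * k) → Wt X L) ≃ (Fin (2 * k) → Wt X ℂ) :=
      Equiv.arrowCongr (Equiv.refl _)
        (xEquiv (E := fun i : X.I => (X.factor i).E) (fun i : X.I => i) τ hτ)
    let M : MultilinearMap ℂ (fun _ : Fin (2 * k) => Wt X ℂ → ℂ) ℂ :=
      formOf (E := fun i : X.I => (X.factor i).E) (fun i : X.I => i)
        (fun I' => τ (c (e.symm I')))
    have hM : ∀ v : Fin (2 * k) → X.H1, M (fun l => chiX (v l)) = ((f v : ℚ) : ℂ) := by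
      intro v
      change formOf (E := fun i : X.I => (X.factor i).E) (fun i : X.I => i)
        (fun I' => τ (c (e.symm I'))) (fun l => chiX (v l)) = _
      rw [formOf_apply]
      have h2 := congrArg τ (hc v)
      rw [map_ratCast] at h2
      refine Eq.trans ?_ h2.symm
      rw [map_sum]
      refine (Fintype.sum_equiv e _ _ fun I => ?_).symm
      rw [map_mul, map_prod, Equiv.symm_apply_apply]
      rfl
    have hMe : M (eI (e I)) = τ (c I) := by
      have h3 := formOf_single (E := fun i : X.I => (X.factor i).E) (fun i : X.I => i)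
        (fun I' => τ (c (e.symm I'))) (e I) (fun _ => (1 : ℂ))
      rw [Finset.prod_const_one, mul_one, Equiv.symm_apply_apply] at h3
      exact h3
    have h4 := alg_cx P hM hf (e I) (by
      rw [hMe]
      exact fun h0 => hI ((map_eq_zero τ).1 h0)) (by
      rw [hMe, mem_algebraicClosure_iff]
      have h5 : IsAlgebraic ℚ (c I) := Algebra.IsAlgebraic.isAlgebraic _
      exact (isAlgebraic_algHom_iff (RingHom.equivRatAlgHom L ℂ τ) τ.injective).2 h5)
    exact h4
  -- the monomials are balanced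
  have hbal : ∀ I : Fin (2 * k) → Wt X L, c I ≠ 0 → Balanced (fun l => St j (I l)) := by
    intro I hI σ
    let w : Multiset (Letter L) := (Finset.univ : Finset (Fin (2 * k))).val.map
      (fun l => (⟨X.factor (I l).1, (I l).2⟩ : Letter L))
    have hw : ∀ τ, AlgW j P (w.map (Letter.act τ)) := by
      intro τ
      have h1 := pow_mem (hper I hI τ) 2
      unfold AlgW
      have h2 : ((w.map (Letter.act τ)).map (P.rl j)).prod =
          ∏ l, P.rl j ((⟨X.factor (I l).1, (I l).2⟩ : Letter L).act τ) := by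
        simp only [w]
        rw [Multiset.map_map, Multiset.map_map]
        rfl
      rw [h2]
      have h3 : ((∏ l, P.th (⟨(I l).1, j.comp (τ • (I l).2)⟩ : Wt X ℂ)) /
          (2 * Real.pi * Complex.I) ^ k) ^ 2 =
          ∏ l, P.rl j ((⟨X.factor (I l).1, (I l).2⟩ : Letter L).act τ) := by
        unfold PeriodSystem.rl
        rw [Finset.prod_div_distrib, Finset.prod_pow, div_pow, Finset.prod_const,
          Finset.card_univ, Fintype.card_fin, ← pow_mul, mul_comm k 2]
        rfl
      rwa [h3] at h1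
    have h1 := balanced_of_rl j P hB hD hcomm w hw σ
    have h2 : (w.map (fun x => x.s j σ)).sum =
        ∑ l, (⟨X.factor (I l).1, (I l).2⟩ : Letter L).s j σ := by
      simp only [w]
      rw [Multiset.map_map]
      rfl
    rw [h2] at h1
    refine Eq.trans (Finset.sum_congr rfl fun l _ => ?_) h1
    by_cases h : σ ∈ St j (I l)
    · rw [if_pos h]
      exact (Letter.s_pos j (⟨X.factor (I l).1, (I l).2⟩ : Letter L) σ h).symm
    · rw [if_neg h]
      exact (Letter.s_neg j (⟨X.factor (I l).1, (I l).2⟩ : Letter L) σ h).symm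
  -- the class is a sum of traces
  have hsum : ∀ v : Fin (2 * k) → X.H1,
      ((Fintype.card (Perm (Fin (2 * k))) : ℕ) : L) * ((f v : ℚ) : L) =
        ∑ I : Fin (2 * k) → Wt X L, c I * mono I v := by
    intro v
    have h1 : ∀ σ : Perm (Fin (2 * k)), ((f v : ℚ) : L) = ((Perm.sign σ : ℤ) : L) *
        ∑ I : Fin (2 * k) → Wt X L, c I * ∏ l, ev (v (σ l)) (I l) := by
      intro σ
      have h2 : ((f (fun l => v (σ l)) : ℚ) : L) =
          ∑ I : Fin (2 * k) → Wt X L, c I * ∏ l, ev (v (σ l)) (I l) := hc (fun l => v (σ l))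
      rw [← h2]
      have h3 : f (fun l => v (σ l)) = Perm.sign σ • f v := f.map_perm v σ
      rw [h3, Units.smul_def, zsmul_eq_mul, Rat.cast_mul, Rat.cast_intCast, ← mul_assoc,
        ← Int.cast_mul, ← Units.val_mul, Int.units_mul_self, Units.val_one, Int.cast_one, one_mul]
    have h4 : ((Fintype.card (Perm (Fin (2 * k))) : ℕ) : L) * ((f v : ℚ) : L) =
        ∑ σ : Perm (Fin (2 * k)), ((Perm.sign σ : ℤ) : L) *
          ∑ I : Fin (2 * k) → Wt X L, c I * ∏ l, ev (v (σ l)) (I l) := by
      rw [← Finset.sum_congr rfl (fun σ _ => h1 σ), Finset.sum_const, Finset.card_univ,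
        nsmul_eq_mul]
    rw [h4]
    simp only [Finset.mul_sum]
    rw [Finset.sum_comm]
    refine Finset.sum_congr rfl fun I _ => ?_
    rw [mono_apply, Finset.mul_sum]
    refine Finset.sum_congr rfl fun σ _ => ?_
    ring
  set q : ℚ := (finrank ℚ L : ℚ) * (Fintype.card (Perm (Fin (2 * k))) : ℕ) with hq
  have hq0 : q ≠ 0 := mul_ne_zero (Nat.cast_ne_zero.2 finrank_pos.ne')
    (Nat.cast_ne_zero.2 Fintype.card_ne_zero)
  have h5 : q • f = ∑ I : Fin (2 * k) → Wt X L, trForm (c I) I := by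
    ext v
    let ev0 : (X.H1 [⋀^Fin (2 * k)]→ₗ[ℚ] ℚ) →+ ℚ :=
      { toFun := fun g => g v, map_zero' := rfl, map_add' := fun _ _ => rfl }
    have h8 : (∑ I : Fin (2 * k) → Wt X L, trForm (c I) I) v =
        ∑ I : Fin (2 * k) → Wt X L, trForm (c I) I v := map_sum ev0 _ _
    rw [AlternatingMap.smul_apply, h8]
    have h6 := congrArg (Algebra.trace ℚ L) (hsum v)
    have h7 : ((Fintype.card (Perm (Fin (2 * k))) : ℕ) : L) * ((f v : ℚ) : L) =
        algebraMap ℚ L ((Fintype.card (Perm (Fin (2 * k))) : ℕ) * f v) := by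
      rw [map_mul, map_natCast, eq_ratCast]
    rw [h7, Algebra.trace_algebraMap, map_sum, nsmul_eq_mul] at h6
    rw [smul_eq_mul, hq, mul_assoc]
    exact h6
  have h6 : IsHodge X.per (q • f) := by
    rw [h5]
    refine hodge_sum _ _ fun I _ => ?_
    by_cases hI : c I = 0
    · have h7 : trForm (c I) I = 0 := by
        ext v
        rw [trForm_apply, hI, zero_mul, map_zero]
        rfl
      rw [h7]
      exact hodge_zero X _
    · exact isHodge_trForm j I (hbal I hI) (c I)
  have h7 := hodge_smul q⁻¹ h6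
  rwa [smul_smul, inv_mul_cancel₀ hq0, one_smul] at h7

/-- **De Rham-Betti classes are Hodge classes.** -/
theorem hodge_of_drb (P : PeriodSystem) (hB : P.Bost) (hD : P.Deligne) (X : CMAV)
    (hX : ∀ i, IsAbelian (X.factor i).E) (k : ℕ) (f : X.H1 [⋀^Fin (2 * k)]→ₗ[ℚ] ℚ)
    (hf : P.IsDRB X k f) : IsHodge X.per f := by
  rcases isEmpty_or_nonempty (Fin (2 * k)) with hκ | ⟨⟨k0⟩⟩
  · exact hodge_unit f
  rcases isEmpty_or_nonempty X.I with hI | hI
  · have h1 : f = 0 := by
      ext v
      have h2 : v k0 = 0 := by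
        funext i
        exact (hI.false i).elim
      rw [f.map_coord_zero k0 h2]
      rfl
    rw [h1]
    exact hodge_zero X _
  obtain ⟨L, _, _, _, _, j, hj, hgen⟩ := exists_cm' X
  exact hodge_of_drb_field j P hB hD (comm_closure j X hX hgen) X hj k f hf

end

end Pool.Agent.W537.PC
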